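import Pool.Agent.Work.MP_59e60d_pr.Exist

/-!
# Disproof of the conjectured optimality of `o_k n` at the hitting time

For every `k ≥ 1` the constant `o_k` exists and is greater than `k / 2`, and for every
`0 < ε < o_k - k / 2` Builder has strategies with budget at most `(o_k - ε) n` for which the
probability of having minimum degree at least `k` at the time `τ_k` is bounded away from zero.
-/

namespace Pool.Agent.Results.MP_59e60d_pr.Disproof

open Pool.Agent.Work.MP_59e60d_pr Filter Topology

/-- For every `k ≥ 1` there is a real number `o` (the constant `o_k`) which is the only one with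
`IsNearestConst k o`; it satisfies `k / 2 < o`, and for every `ε` with `0 < ε < o - k / 2` there
are budgets `b n ≤ (o - ε) n`, decision rules `D n` (the edge `e` is bought if and only if
`D n e B`, where `B` is the set of the edges already bought) that never hold more than `b n` edges,
and a constant `c > 0` such that, for all large `n`, the graph bought up to the hitting time `τ_k`
has minimum degree at least `k` with probability at least `c`. -/
theorem result (k : ℕ) (hk : 1 ≤ k) :
    ∃ o : ℝ, IsNearestConst k o ∧ (∀ o' : ℝ, IsNearestConst k o' → o' = o) ∧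
      (k : ℝ) / 2 < o ∧ ∀ ε : ℝ, 0 < ε → ε < o - k / 2 →
        ∃ (b : ℕ → ℕ) (D : (n : ℕ) → Edge n → Finset (Edge n) → Prop) (c : ℝ),
          (∀ n : ℕ, (b n : ℝ) ≤ (o - ε) * n) ∧
          (∀ (n : ℕ) (σ : Order n) (t : ℕ), (bought (fun _ => D n) σ t).card ≤ b n) ∧
          0 < c ∧ ∀ᶠ n : ℕ in atTop,
            c ≤ prob (fun σ : Order n => MinDeg k (bought (fun _ => D n) σ (tau k σ))) := by
  refine ⟨oConst k, exists_nearest_const k, fun o' ho' => const_unique (exists_nearest_const k) ho',
    half_lt_const k hk _ (exists_nearest_const k), fun ε _ hε => ?_⟩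
  obtain ⟨M, b, hb, c, hc, hev⟩ := positive_prob k hk (oConst k - ε) (by linarith)
  exact ⟨b, fun n => rule n k (M n) (b n), c, hb,
    fun n σ t => rule_budget k (M n) (b n) σ t, hc, hev⟩

end Pool.Agent.Results.MP_59e60d_pr.Disproof
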