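import Pool.Agent.Work.MP_59e60d_pr.Final

/-!
# The exact budget for minimum degree `k` at the hitting time `τ_k`, with high probability

The smallest budget with which Builder can reach minimum degree `k` at time `τ_k` with high
probability is `(w_k + o(1)) n`, where `w_1 = o_1` and `w_k < o_k` for `k ≥ 2`.
-/

namespace Pool.Agent.Results.MP_59e60d_pr.Threshold

open Pool.Agent.Work.MP_59e60d_pr Filter Topology

/-- Let `k ≥ 1`, `o_k = oThr k` and `w_k = wThr k`.
(1) `o_k` is the unique constant with `|nearest k| / n → o_k` in probability; `k / 2 < w_k`;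
`w_1 = o_1`, and `w_k < o_k` for `k ≥ 2`.
(2) For every `ε > 0` there are budgets `b n ≤ (w_k + ε) n` and decision rules `D n` (the edge `e`
is bought if and only if `D n e B`, where `B` is the set of the edges already bought) that never
hold more than `b n` edges and reach minimum degree `k` at time `τ_k` with probability tending
to `1`.
(3) For every `ε > 0` there is `c > 0` such that for all large `n` every randomised online strategy
(a mixture, with weights `p i`, of finitely many deterministic online strategies `B i`) has, with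
probability at most `1 - c`, minimum degree at least `k` and at most `(w_k - ε) n` edges at time
`τ_k`. -/
theorem result (k : ℕ) (hk : 1 ≤ k) :
    (IsNearestConst k (oThr k) ∧ (∀ o : ℝ, IsNearestConst k o → o = oThr k) ∧
      (k : ℝ) / 2 < wThr k ∧ (k = 1 → wThr k = oThr k) ∧ (2 ≤ k → wThr k < oThr k)) ∧
    (∀ ε : ℝ, 0 < ε → ∃ (b : ℕ → ℕ) (D : (n : ℕ) → Edge n → Finset (Edge n) → Prop),
      (∀ n : ℕ, (b n : ℝ) ≤ (wThr k + ε) * n) ∧
      (∀ (n : ℕ) (σ : Order n) (t : ℕ), (bought (fun _ => D n) σ t).card ≤ b n) ∧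
      Tendsto (fun n : ℕ => prob (fun σ : Order n =>
        MinDeg k (bought (fun _ => D n) σ (tau k σ)))) atTop (𝓝 1)) ∧
    (∀ ε : ℝ, 0 < ε → ∃ c : ℝ, 0 < c ∧ ∀ᶠ n : ℕ in atTop,
      ∀ (ι : Type) [Fintype ι] (p : ι → ℝ) (B : ι → Order n → ℕ → Finset (Edge n)),
        (∀ i, 0 ≤ p i) → ∑ i, p i = 1 → (∀ i, Online (B i)) →
        ∑ i, p i * prob (fun σ : Order n => MinDeg k (B i σ (tau k σ)) ∧
          ((B i σ (tau k σ)).card : ℝ) ≤ (wThr k - ε) * n) ≤ 1 - c) := by
  rw [wThr_eq, oThr_eq]
  refine ⟨⟨exists_nearest_const k, fun o ho => const_unique (exists_nearest_const k) ho,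
    half_lt_wConst k hk, ?_, wConst_lt_oConst k⟩, upper_whp k hk, ?_⟩
  · rintro rfl
    rw [wConst_one, oConst_one]
  · intro ε hε
    have h := lower_mixed k hk ε hε
    rw [wThr_eq] at h
    exact h

end Pool.Agent.Results.MP_59e60d_pr.Threshold
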